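import Mathlib
import Pool.Agent.helper81.DI.SpecC

/-!
# Project di (MP_baa4d7_al), module C11
-/

set_option autoImplicit false

namespace Pool.Agent.DI

open Pool.Agent.helper58.DC

/-- C11. A block with a character of defect `0` has only one character. -/
theorem C11 (hB1 : B1_stmt) (hC1 : C1_stmt) (hC3 : C3_stmt) : C11_stmt := by
  intro Γ _ _ p _ M hM hp χ hχ χ₀ hχ₀ hD hI
  by_contra hne
  obtain ⟨n, hn, hd⟩ := hD
  obtain ⟨-, hB⟩ := hB1 Γ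
  obtain ⟨⟨n', hn'0, hn', hdvd⟩, hcl, hint, horth⟩ := hB χ₀ hχ₀
  obtain ⟨-, -, -, horth'⟩ := hB χ hχ
  have hnn : n = n' := by
    have h : (n : ℂ) = n' := by rw [← hn, ← hn']
    exact_mod_cast h
  subst hnn
  obtain ⟨k, hk⟩ := hdvd
  have hcard : Nat.card Γ ≠ 0 := Nat.card_pos.ne'
  have hk0 : k ≠ 0 := by
    rintro rfl
    exact hcard (by rw [hk, mul_zero])
  have hv : padicValNat p k = 0 := by
    have h1 : Nat.card (⊤ : Subgroup Γ) = n * k := by rw [Subgroup.card_top, hk]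
    rw [h1, padicValNat.mul hn'0.ne' hk0, Nat.cast_add] at hd
    have : (padicValNat p k : ℤ) = 0 := by linarith
    exact_mod_cast this
  have hpk : ¬ p ∣ k := by
    intro h
    exact absurd hv ((dvd_iff_padicValNat_ne_zero hk0).mp h)
  have hn0 : (n : ℂ) ≠ 0 := by exact_mod_cast hn'0.ne'
  -- the central element
  have hz : IsZO (fun x : Γ => χ₀ x⁻¹) := by
    refine ⟨fun x y => ?_, fun x => hint _⟩
    have h := hcl x⁻¹ y
    have e : (y * x * y⁻¹)⁻¹ = y * x⁻¹ * y⁻¹ := by group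
    show χ₀ (y * x * y⁻¹)⁻¹ = χ₀ x⁻¹
    rw [e, h]
  have h1 : cc χ₀ (fun x : Γ => χ₀ x⁻¹) = k := by
    unfold cc
    have h2 := horth χ₀ hχ₀
    rw [if_pos rfl] at h2
    have h3 : ∑ᶠ x : Γ, χ₀ x⁻¹ * χ₀ x = (Nat.card Γ : ℂ) := by
      rw [← h2]
      exact finsum_congr fun x => mul_comm _ _
    show (∑ᶠ x : Γ, χ₀ x⁻¹ * χ₀ x) / χ₀ 1 = k
    rw [h3, hn', hk, Nat.cast_mul, mul_div_cancel_left₀ _ hn0]
  have h2 : cc χ (fun x : Γ => χ₀ x⁻¹) = 0 := by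
    unfold cc
    have h2 := horth' χ₀ hχ₀
    rw [if_neg hne] at h2
    have h3 : ∑ᶠ x : Γ, χ₀ x⁻¹ * χ x = 0 := by
      rw [← h2]
      exact finsum_congr fun x => mul_comm _ _
    show (∑ᶠ x : Γ, χ₀ x⁻¹ * χ x) / χ 1 = 0
    rw [h3, zero_div]
  have h3 := (hC3 Γ).2.2.1 p M hM hp χ χ₀ hI _ hz
  rw [h1, h2] at h3
  obtain ⟨-, hsymm, -, -, -, -, hnat, -⟩ := hC1 p M hM hp
  exact hpk ((hnat k).mp (hsymm _ _ h3))

end Pool.Agent.DI
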